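import Pool.Agent.T9h44.NK.SpecC

/-!
# Project NK: the regular simplex is flag-transitive (piece FTS)
-/

set_option autoImplicit false

open Set
open scoped RealInnerProductSpace

namespace Pool.Agent.T9h77.NK

open Pool.Agent.T9h98.DC Pool.Agent.T9h44.NK

/-- the norm of a combination of equidistant points -/
lemma norm_comb {d m : ℕ} {v : Fin m → E d} {s : ℝ} (hv : ∀ i j, i ≠ j → dist (v i) (v j) = s)
    (w : Fin m → ℝ) (hw : ∑ i, w i = 0) : ‖∑ i, w i • v i‖ ^ 2 = s ^ 2 / 2 * ∑ i, w i ^ 2 := by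
  classical
  have h2 : ∀ i j, ⟪v i, v j⟫ = (‖v i‖ ^ 2 + ‖v j‖ ^ 2 - (if i = j then 0 else s ^ 2)) / 2 := by
    intro i j
    have h3 := norm_sub_sq_real (v i) (v j)
    by_cases h : i = j
    · subst h
      rw [if_pos rfl, real_inner_self_eq_norm_sq]
      ring
    · rw [if_neg h, ← hv i j h, dist_eq_norm]
      linarith
  rw [← real_inner_self_eq_norm_sq, sum_inner]
  have h4 : ∀ i, ⟪w i • v i, ∑ j, w j • v j⟫ =
      ∑ j, ((w i * ‖v i‖ ^ 2 / 2) * w j + w i * (w j * ‖v j‖ ^ 2 / 2) - (s ^ 2 / 2 * w i) * w j +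
        (if i = j then s ^ 2 / 2 * w i ^ 2 else 0)) := by
    intro i
    rw [inner_sum]
    refine Finset.sum_congr rfl fun j _ => ?_
    rw [real_inner_smul_left, real_inner_smul_right, h2]
    by_cases h : i = j
    · subst h
      rw [if_pos rfl, if_pos rfl]
      ring
    · rw [if_neg h, if_neg h]
      ring
  rw [Finset.sum_congr rfl fun i _ => h4 i]
  simp only [Finset.sum_add_distrib, Finset.sum_sub_distrib, ← Finset.mul_sum, hw,
    Finset.sum_ite_eq, Finset.mem_univ, if_true, mul_zero, sub_zero, zero_add, ← Finset.sum_mul,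
    zero_mul]

lemma aff_ind {d m : ℕ} {v : Fin m → E d} {s : ℝ} (hs : 0 < s)
    (hv : ∀ i j, i ≠ j → dist (v i) (v j) = s) : AffineIndependent ℝ v := by
  rw [affineIndependent_iff_of_fintype]
  intro w hw h i
  rw [Finset.weightedVSub_eq_linear_combination Finset.univ hw] at h
  have h1 := norm_comb hv w hw
  rw [h, norm_zero] at h1
  have h2 : ∑ i, w i ^ 2 = 0 := by
    have : (0 : ℝ) < s ^ 2 / 2 := by positivity
    have h3 : s ^ 2 / 2 * ∑ i, w i ^ 2 = 0 := by rw [← h1]; norm_num
    rcases mul_eq_zero.1 h3 with h4 | h4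
    · linarith
    · exact h4
  have h3 := (Finset.sum_eq_zero_iff_of_nonneg fun i _ => sq_nonneg (w i)).1 h2 i
    (Finset.mem_univ i)
  exact pow_eq_zero_iff (two_ne_zero) |>.1 h3

section
variable {d : ℕ} (b : AffineBasis (Fin (d + 1)) ℝ (E d))

/-- the permutation of the points of the basis, extended affinely -/
noncomputable def pm (τ : Equiv.Perm (Fin (d + 1))) (x : E d) : E d :=
  ∑ k, b.coord k x • b (τ k)

lemma coord_pm (τ : Equiv.Perm (Fin (d + 1))) (x : E d) (j : Fin (d + 1)) :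
    b.coord j (pm b τ x) = b.coord (τ.symm j) x := by
  have h0 : ∑ k, b.coord (τ.symm k) x = 1 := by
    rw [Equiv.sum_comp τ.symm (fun k => b.coord k x)]
    exact b.sum_coord_apply_eq_one x
  have h1 : pm b τ x = Finset.univ.affineCombination ℝ b (fun k => b.coord (τ.symm k) x) := by
    rw [Finset.affineCombination_eq_linear_combination _ _ _ h0,
      ← Equiv.sum_comp τ (fun k => b.coord (τ.symm k) x • b k)]
    unfold pm
    refine Finset.sum_congr rfl fun k _ => ?_
    rw [Equiv.symm_apply_apply]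
  rw [h1, b.coord_apply_combination_of_mem (Finset.mem_univ j) h0]

lemma coord_ext {x y : E d} (h : ∀ k, b.coord k x = b.coord k y) : x = y := by
  rw [← b.linear_combination_coord_eq_self x, ← b.linear_combination_coord_eq_self y]
  exact Finset.sum_congr rfl fun k _ => by rw [h k]

lemma pm_symm (τ : Equiv.Perm (Fin (d + 1))) (x : E d) : pm b τ.symm (pm b τ x) = x := by
  apply coord_ext b
  intro k
  rw [coord_pm, coord_pm, Equiv.symm_symm, Equiv.symm_apply_apply]

lemma pm_symm' (τ : Equiv.Perm (Fin (d + 1))) (x : E d) : pm b τ (pm b τ.symm x) = x := by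
  have h := pm_symm b τ.symm x
  rwa [Equiv.symm_symm] at h

lemma dist_eq {s : ℝ} (hv : ∀ i j, i ≠ j → dist (b i) (b j) = s) (x y : E d) :
    dist x y ^ 2 = s ^ 2 / 2 * ∑ k, (b.coord k x - b.coord k y) ^ 2 := by
  have h1 : x - y = ∑ k, (b.coord k x - b.coord k y) • b k := by
    conv_lhs => rw [← b.linear_combination_coord_eq_self x, ← b.linear_combination_coord_eq_self y]
    rw [← Finset.sum_sub_distrib]
    exact Finset.sum_congr rfl fun k _ => by rw [sub_smul]
  rw [dist_eq_norm, h1, norm_comb hv]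
  rw [Finset.sum_sub_distrib, b.sum_coord_apply_eq_one, b.sum_coord_apply_eq_one, sub_self]

/-- the isometry of a permutation -/
noncomputable def pmI {s : ℝ} (hv : ∀ i j, i ≠ j → dist (b i) (b j) = s)
    (τ : Equiv.Perm (Fin (d + 1))) : E d ≃ᵢ E d where
  toFun := pm b τ
  invFun := pm b τ.symm
  left_inv := pm_symm b τ
  right_inv := pm_symm' b τ
  isometry_toFun := by
    refine Isometry.of_dist_eq fun x y => ?_
    have h1 := dist_eq b hv (pm b τ x) (pm b τ y)
    have h2 := dist_eq b hv x y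
    simp only [coord_pm] at h1
    rw [Equiv.sum_comp τ.symm (fun k => (b.coord k x - b.coord k y) ^ 2), ← h2] at h1
    exact (sq_eq_sq₀ dist_nonneg dist_nonneg).1 h1

lemma mem_hull {P : Set (E d)} (hP : P = convexHull ℝ (range b)) (x : E d) :
    x ∈ P ↔ ∀ k, 0 ≤ b.coord k x := by
  rw [hP, AffineBasis.convexHull_eq_nonneg_coord]
  rfl

/-- faces in coordinates -/
lemma face_coord {P F : Set (E d)} (hP : P = convexHull ℝ (range b)) (hF : IsFace P F) :
    (∀ x, x ∈ F ↔ (∀ k, 0 ≤ b.coord k x) ∧ ∀ k, b k ∉ F → b.coord k x = 0) ∧ ∃ k, b k ∈ F := by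
  obtain ⟨l, hl⟩ := hF.2 hF.1
  have hbP : ∀ k, b k ∈ P := fun k => by
    rw [hP]; exact subset_convexHull ℝ _ ⟨k, rfl⟩
  obtain ⟨k₀, hk₀⟩ := Finite.exists_max (fun k => l (b k))
  have hlx : ∀ x, l x = ∑ k, b.coord k x * l (b k) := by
    intro x
    conv_lhs => rw [← b.linear_combination_coord_eq_self x]
    rw [map_sum]
    exact Finset.sum_congr rfl fun k _ => by rw [map_smul, smul_eq_mul]
  have hdiff : ∀ x, l (b k₀) - l x = ∑ k, b.coord k x * (l (b k₀) - l (b k)) := by
    intro x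
    simp only [mul_sub, Finset.sum_sub_distrib, ← Finset.sum_mul, b.sum_coord_apply_eq_one, one_mul]
    rw [← hlx]
  have hle : ∀ x ∈ P, l x ≤ l (b k₀) := by
    intro x hx
    have h1 : 0 ≤ l (b k₀) - l x := by
      rw [hdiff]
      exact Finset.sum_nonneg fun k _ => mul_nonneg ((mem_hull b hP x).1 hx k)
        (sub_nonneg.2 (hk₀ k))
    linarith
  have hF' : ∀ x, x ∈ F ↔ x ∈ P ∧ l x = l (b k₀) := by
    intro x
    rw [hl]
    constructor
    · rintro ⟨h1, h2⟩
      exact ⟨h1, le_antisymm (hle x h1) (h2 _ (hbP k₀))⟩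
    · rintro ⟨h1, h2⟩
      exact ⟨h1, fun y hy => by rw [h2]; exact hle y hy⟩
  refine ⟨fun x => ?_, k₀, (hF' _).2 ⟨hbP k₀, rfl⟩⟩
  constructor
  · intro hx
    obtain ⟨h1, h2⟩ := (hF' x).1 hx
    have h3 := (mem_hull b hP x).1 h1
    refine ⟨h3, fun k hk => ?_⟩
    have h4 : ∑ k, b.coord k x * (l (b k₀) - l (b k)) = 0 := by rw [← hdiff, h2, sub_self]
    have h5 := (Finset.sum_eq_zero_iff_of_nonneg fun k _ => mul_nonneg (h3 k)
      (sub_nonneg.2 (hk₀ k))).1 h4 k (Finset.mem_univ k)
    rcases mul_eq_zero.1 h5 with h6 | h6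
    · exact h6
    · exact absurd ((hF' _).2 ⟨hbP k, by linarith⟩) hk
  · rintro ⟨h1, h2⟩
    refine (hF' x).2 ⟨(mem_hull b hP x).2 h1, ?_⟩
    have h3 : l (b k₀) - l x = 0 := by
      rw [hdiff]
      refine Finset.sum_eq_zero fun k _ => ?_
      by_cases hk : b k ∈ F
      · rw [((hF' _).1 hk).2, sub_self, mul_zero]
      · rw [h2 k hk, zero_mul]
    linarith

open Classical in
/-- the dimension of a face -/
lemma face_dim {P F : Set (E d)} (hP : P = convexHull ℝ (range b)) (hF : IsFace P F) :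
    (Finset.univ.filter fun k => b k ∈ F).card = Module.finrank ℝ (vectorSpan ℝ F) + 1 := by
  obtain ⟨h1, k₀, hk₀⟩ := face_coord b hP hF
  set I := Finset.univ.filter fun k => b k ∈ F with hI
  have hmem : ∀ k, k ∈ I ↔ b k ∈ F := fun k => by rw [hI, Finset.mem_filter]; simp
  obtain ⟨n, hn⟩ : ∃ n, I.card = n + 1 := ⟨I.card - 1, by
    have : 0 < I.card := Finset.card_pos.2 ⟨k₀, (hmem k₀).2 hk₀⟩
    omega⟩
  have h2 := b.ind.finrank_vectorSpan_image_finset hn
  have h3 : vectorSpan ℝ F = vectorSpan ℝ ((I.image b : Finset (E d)) : Set (E d)) := by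
    apply le_antisymm
    · have h4 : F ⊆ affineSpan ℝ ((I.image b : Finset (E d)) : Set (E d)) := by
        intro x hx
        rw [Finset.coe_image, ← b.affineCombination_coord_eq_self x]
        refine affineCombination_mem_affineSpan_image (b.sum_coord_apply_eq_one x) ?_ b
        intro k _ hk
        exact ((h1 x).1 hx).2 k fun h => hk ((hmem k).2 h)
      have h5 := vectorSpan_mono ℝ h4
      rwa [← direction_affineSpan ℝ (affineSpan ℝ ((I.image b : Finset (E d)) : Set (E d)) :
        Set (E d)), AffineSubspace.affineSpan_coe, direction_affineSpan] at h5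
    · apply vectorSpan_mono ℝ
      intro x hx
      rw [Finset.coe_image] at hx
      obtain ⟨k, hk, rfl⟩ := hx
      exact (hmem k).1 hk
  rw [hn, h3, h2]

end

theorem fts : S_PERM → S_FTS := by
  classical
  rintro hperm d P ⟨v, s, hs, hdist, hP⟩ Φ Ψ
  have hai := aff_ind hs hdist
  have htop : affineSpan ℝ (range v) = ⊤ := by
    rw [hai.affineSpan_eq_top_iff_card_eq_finrank_add_one]
    simp
  let b : AffineBasis (Fin (d + 1)) ℝ (E d) := ⟨v, hai, htop⟩
  have hPb : P = convexHull ℝ (range b) := hP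
  have hdb : ∀ i j, i ≠ j → dist (b i) (b j) = s := hdist
  obtain ⟨τ, hτ⟩ := hperm (d + 1) d (fun i => Finset.univ.filter fun k => b k ∈ Φ.face i)
    (fun i => Finset.univ.filter fun k => b k ∈ Ψ.face i)
    (fun i j hij k hk => by
      rw [Finset.mem_filter] at hk ⊢
      exact ⟨hk.1, Φ.mono hij hk.2⟩)
    (fun i j hij k hk => by
      rw [Finset.mem_filter] at hk ⊢
      exact ⟨hk.1, Ψ.mono hij hk.2⟩)
    (fun i => by rw [face_dim b hPb (Φ.isFace i), Φ.dim])
    (fun i => by rw [face_dim b hPb (Ψ.isFace i), Ψ.dim])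
  have himg : ∀ A B : Set (E d), (∀ x, x ∈ A ↔ pm b τ x ∈ B) → pmI b hdb τ '' A = B := by
    intro A B h
    ext y
    constructor
    · rintro ⟨x, hx, rfl⟩
      exact (h x).1 hx
    · intro hy
      refine ⟨pm b τ.symm y, (h _).2 ?_, ?_⟩
      · rw [pm_symm']
        exact hy
      · exact pm_symm' b τ y
  refine ⟨pmI b hdb τ, himg P P fun x => ?_, fun i => himg _ _ fun x => ?_⟩
  · rw [mem_hull b hPb, mem_hull b hPb]
    simp only [coord_pm]
    exact ⟨fun h k => h _, fun h k => by
      have := h (τ k)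
      rwa [Equiv.symm_apply_apply] at this⟩
  · rw [(face_coord b hPb (Φ.isFace i)).1, (face_coord b hPb (Ψ.isFace i)).1]
    simp only [coord_pm]
    have hmem : ∀ k, b k ∈ Φ.face i ↔ b (τ k) ∈ Ψ.face i := by
      intro k
      have h1 := hτ i
      have h2 : τ k ∈ (Finset.univ.filter fun k => b k ∈ Φ.face i).image τ ↔
          τ k ∈ Finset.univ.filter fun k => b k ∈ Ψ.face i := by rw [h1]
      rw [Finset.mem_image] at h2
      simp only [Finset.mem_filter, Finset.mem_univ, true_and] at h2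
      rw [← h2]
      exact ⟨fun h => ⟨k, h, rfl⟩, fun ⟨k', h, h'⟩ => by rwa [← τ.injective h']⟩
    constructor
    · rintro ⟨h1, h2⟩
      refine ⟨fun k => h1 _, fun k hk => h2 _ fun h => hk ?_⟩
      have := (hmem _).1 h
      rwa [Equiv.apply_symm_apply] at this
    · rintro ⟨h1, h2⟩
      refine ⟨fun k => ?_, fun k hk => ?_⟩
      · have := h1 (τ k)
        rwa [Equiv.symm_apply_apply] at this
      · have := h2 (τ k) fun h => hk ((hmem k).2 h)
        rwa [Equiv.symm_apply_apply] at this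

end Pool.Agent.T9h77.NK
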