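import Pool.Agent.T9h44.NK.SpecA
import Pool.Agent.T9h44.NK.SpecB

/-!
# Project NK: a polytope with at most `d + 1` vertices is a simplex (piece SIMP)
-/

set_option autoImplicit false

open Set
open scoped RealInnerProductSpace

namespace Pool.Agent.T9h77.NK

open Pool.Agent.T9h98.DC Pool.Agent.T9h44.NK

/-- the segment of two vertices of a simplex is a face -/
lemma seg_face {d : ℕ} (b : AffineBasis (Fin (d + 1)) ℝ (E d)) {P : Set (E d)}
    (hP : P = convexHull ℝ (range b)) (i j : Fin (d + 1)) (hij : i ≠ j) :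
    IsFace P (segment ℝ (b i) (b j)) := by
  classical
  have hmem : ∀ x, x ∈ P ↔ ∀ k, 0 ≤ b.coord k x := by
    intro x
    rw [hP, AffineBasis.convexHull_eq_nonneg_coord]
    rfl
  have hsub : segment ℝ (b i) (b j) ⊆ P := by
    rw [hP]
    exact (convex_convexHull ℝ _).segment_subset (subset_convexHull ℝ _ ⟨i, rfl⟩)
      (subset_convexHull ℝ _ ⟨j, rfl⟩)
  refine ⟨⟨b i, left_mem_segment ℝ _ _⟩, ?_⟩
  intro _
  have hle : ∀ x ∈ P, b.coord i x + b.coord j x ≤ 1 := by
    intro x hx
    have h1 := b.sum_coord_apply_eq_one x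
    rw [← Finset.add_sum_erase _ _ (Finset.mem_univ i),
      ← Finset.add_sum_erase _ _ (Finset.mem_erase.2 ⟨hij.symm, Finset.mem_univ j⟩)] at h1
    have h2 : 0 ≤ ∑ k ∈ (Finset.univ.erase i).erase j, b.coord k x :=
      Finset.sum_nonneg fun k _ => (hmem x).1 hx k
    linarith
  let L : E d →ₗ[ℝ] ℝ := (b.coord i).linear + (b.coord j).linear
  have hL : ∀ x y, L x - L y = (b.coord i x + b.coord j x) - (b.coord i y + b.coord j y) := by
    intro x y
    have h1 := (b.coord i).linearMap_vsub x y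
    have h2 := (b.coord j).linearMap_vsub x y
    rw [vsub_eq_sub, vsub_eq_sub] at h1 h2
    rw [← map_sub]
    change (b.coord i).linear (x - y) + (b.coord j).linear (x - y) = _
    rw [h1, h2]
    ring
  have hseg1 : ∀ x ∈ segment ℝ (b i) (b j), b.coord i x + b.coord j x = 1 := by
    intro x hx
    rw [segment_eq_image_lineMap] at hx
    obtain ⟨t, -, rfl⟩ := hx
    rw [AffineMap.apply_lineMap, AffineMap.apply_lineMap, b.coord_apply_eq, b.coord_apply_ne hij.symm.symm,
      b.coord_apply_ne hij.symm, b.coord_apply_eq]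
    simp [AffineMap.lineMap_apply]
  refine ⟨LinearMap.toContinuousLinearMap L, ?_⟩
  ext x
  constructor
  · intro hx
    refine ⟨hsub hx, fun y hy => ?_⟩
    change L y ≤ L x
    have h1 := hL x y
    have h2 := hseg1 x hx
    have h3 := hle y hy
    linarith
  · rintro ⟨hx, hmax⟩
    have h1 : L (b i) ≤ L x := hmax (b i) (hsub (left_mem_segment ℝ _ _))
    have h2 := hL x (b i)
    have h3 := hseg1 (b i) (left_mem_segment ℝ _ _)
    have h4 := hle x hx
    have h5 : b.coord i x + b.coord j x = 1 := by linarith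
    have h6 := b.sum_coord_apply_eq_one x
    rw [← Finset.add_sum_erase _ _ (Finset.mem_univ i),
      ← Finset.add_sum_erase _ _ (Finset.mem_erase.2 ⟨hij.symm, Finset.mem_univ j⟩)] at h6
    have h7 : ∑ k ∈ (Finset.univ.erase i).erase j, b.coord k x = 0 := by linarith
    have h8 := (Finset.sum_eq_zero_iff_of_nonneg fun k _ => (hmem x).1 hx k).1 h7
    have h9 := b.linear_combination_coord_eq_self x
    rw [← Finset.add_sum_erase _ _ (Finset.mem_univ i),
      ← Finset.add_sum_erase _ _ (Finset.mem_erase.2 ⟨hij.symm, Finset.mem_univ j⟩),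
      Finset.sum_eq_zero (s := (Finset.univ.erase i).erase j)
        (fun k hk => by rw [h8 k hk, zero_smul]), add_zero] at h9
    rw [← h9]
    exact ⟨b.coord i x, b.coord j x, (hmem x).1 hx i, (hmem x).1 hx j, h5, rfl⟩

theorem simp : S_FACES → S_SIMP := by
  intro hF d P X hP hX hcard
  classical
  obtain ⟨hFP, hint⟩ := hP
  obtain ⟨f1, -, f3, -, f5, -⟩ := hF d P hFP
  have hne : P.Nonempty := hint.mono interior_subset
  obtain ⟨hPP, v₀, hv₀⟩ := f5 hne
  have hull := (f1 P hPP).2
  have hVP : ∀ v, Vx P v → v ∈ P := fun v hv => hv.2.subset rfl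
  obtain ⟨W, hW⟩ : ∃ W : Finset (E d), ∀ v, v ∈ W ↔ Vx P v :=
    ⟨f3.toFinset, fun v => by rw [Set.Finite.mem_toFinset]; rfl⟩
  have hull2 : P = convexHull ℝ (W : Set (E d)) := by
    conv_lhs => rw [hull]
    congr 1
    ext v
    rw [Finset.mem_coe, hW]
    exact ⟨fun h => h.1, fun h => ⟨h, hVP v h⟩⟩
  have hWX : W ⊆ X := fun v hv => hX v ((hW v).1 hv)
  have hWc : W.card ≤ d + 1 := (Finset.card_le_card hWX).trans hcard
  have htop : affineSpan ℝ (W : Set (E d)) = ⊤ := by
    rw [← interior_convexHull_nonempty_iff_affineSpan_eq_top, ← hull2]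
    exact hint
  have hWne : W.Nonempty := ⟨v₀, (hW v₀).2 hv₀⟩
  obtain ⟨m, hm⟩ : ∃ m, W.card = m + 1 := ⟨W.card - 1, by
    have := hWne.card_pos
    omega⟩
  have hvs : vectorSpan ℝ (W : Set (E d)) = ⊤ := by
    rw [← direction_affineSpan, htop, AffineSubspace.direction_top]
  obtain ⟨p, hp⟩ : ∃ p : Fin (m + 1) → E d, Function.Injective p ∧ range p = (W : Set (E d)) := by
    refine ⟨fun i => ((W.equivFinOfCardEq hm).symm i : E d), ?_, ?_⟩
    · intro i j hij
      exact (W.equivFinOfCardEq hm).symm.injective (Subtype.ext hij)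
    · ext x
      constructor
      · rintro ⟨i, rfl⟩
        exact ((W.equivFinOfCardEq hm).symm i).2
      · intro hx
        exact ⟨W.equivFinOfCardEq hm ⟨x, hx⟩, by simp⟩
  have hfin : Module.finrank ℝ (vectorSpan ℝ (range p)) = d := by
    rw [hp.2, hvs, finrank_top]
    exact finrank_euclideanSpace_fin
  have hle := finrank_vectorSpan_range_le ℝ p (Fintype.card_fin (m + 1))
  have hmd : m = d := by omega
  subst hmd
  have hai : AffineIndependent ℝ p :=
    (affineIndependent_iff_finrank_vectorSpan_eq ℝ p (Fintype.card_fin (m + 1))).2 hfin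
  let b : AffineBasis (Fin (m + 1)) ℝ (E m) := ⟨p, hai, by rw [hp.2]; exact htop⟩
  have hb : (b : Fin (m + 1) → E m) = p := rfl
  have hPb : P = convexHull ℝ (range b) := by rw [hb, hp.2]; exact hull2
  have hVi : ∀ w, Vx P w → ∃ i, p i = w := by
    intro w hw
    have h1 : w ∈ range p := by rw [hp.2]; exact (hW w).2 hw
    exact h1
  refine ⟨?_, p, hp.1, fun i => ?_, hVi, hPb⟩
  · intro v w hv hw hvw
    obtain ⟨i, rfl⟩ := hVi v hv
    obtain ⟨j, rfl⟩ := hVi w hw
    exact ⟨hvw, seg_face b hPb i j fun h => hvw (by rw [h])⟩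
  · have h1 : p i ∈ (W : Set (E m)) := by rw [← hp.2]; exact ⟨i, rfl⟩
    exact (hW _).1 h1

end Pool.Agent.T9h77.NK
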